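import Mathlib

/-!
Definitions for the hand-in on extreme amenability and the canonisation property.
-/

namespace Pool.Agent.H726Z.Canon

universe v w

/-- The topology of pointwise convergence on the maps `X → Y`, with `Y` discrete. -/
def ptwise (X : Type*) (Y : Type*) : TopologicalSpace (X → Y) :=
  @Pi.topologicalSpace X (fun _ => Y) (fun _ => ⊥)

/-- The topology of pointwise convergence on `Sym(X)`, with `X` discrete. -/
def symTop (X : Type*) : TopologicalSpace (Equiv.Perm X) :=
  TopologicalSpace.induced (fun (g : Equiv.Perm X) (x : X) => g x) (ptwise X X)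

/-- `G` is a closed subgroup of `Sym(X)` for the topology of pointwise convergence. -/
def IsClosedPermGroup {X : Type*} (G : Subgroup (Equiv.Perm X)) : Prop :=
  @IsClosed (Equiv.Perm X) (symTop X) (G : Set (Equiv.Perm X))

/-- The subspace topology on a permutation group `G ≤ Sym(X)`. -/
def permTop {X : Type*} (G : Subgroup (Equiv.Perm X)) : TopologicalSpace G :=
  TopologicalSpace.induced (fun g : G => (g : Equiv.Perm X)) (symTop X)

/-- The group `G` with the topology `τ` is extremely amenable: every jointly continuous action of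
`G` on a nonempty compact Hausdorff space has a fixed point. -/
def ExtremelyAmenable (G : Type*) [Group G] (τ : TopologicalSpace G) : Prop :=
  ∀ (K : Type v) [TopologicalSpace K] [CompactSpace K] [T2Space K] [Nonempty K] [MulAction G K],
    @Continuous (G × K) K (@instTopologicalSpaceProd G K τ _) _ (fun p => p.1 • p.2) →
      ∃ x : K, ∀ g : G, g • x = x

/-- `H ≤ Sym(Y)` is oligomorphic: for every `n ≥ 1` the componentwise action of `H` on `Y ^ n` has
only finitely many orbits. -/
def Oligomorphic {Y : Type*} (H : Subgroup (Equiv.Perm Y)) : Prop :=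
  ∀ n : ℕ, 1 ≤ n → Finite (MulAction.orbitRel.Quotient H (Fin n → Y))

/-- `f : X → Y` is canonical with respect to `G` and `H`. -/
def Canonical {X : Type*} {Y : Type*} (G : Subgroup (Equiv.Perm X)) (H : Subgroup (Equiv.Perm Y))
    (f : X → Y) : Prop :=
  ∀ n : ℕ, 1 ≤ n → ∀ a : Fin n → X, ∀ α ∈ G, ∃ β ∈ H, ∀ i : Fin n, f (α (a i)) = β (f (a i))

/-- The set `H f G` of the maps `β ∘ f ∘ α` with `β ∈ H` and `α ∈ G`. -/
def translates {X : Type*} {Y : Type*} (H : Subgroup (Equiv.Perm Y)) (f : X → Y)
    (G : Subgroup (Equiv.Perm X)) : Set (X → Y) :=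
  {g | ∃ β ∈ H, ∃ α ∈ G, g = β ∘ f ∘ α}

/-- The canonisation property of `G ≤ Sym(X)`: for every oligomorphic `H ≤ Sym(Y)` and every map
`f : X → Y` the pointwise closure of `H f G` contains a function canonical with respect to `G`
and `H`. -/
def Canonisation {X : Type*} (G : Subgroup (Equiv.Perm X)) : Prop :=
  ∀ (Y : Type w) (H : Subgroup (Equiv.Perm Y)), Oligomorphic H → ∀ f : X → Y,
    ∃ g ∈ @closure (X → Y) (ptwise X Y) (translates H f G), Canonical G H g

end Pool.Agent.H726Z.Canon
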