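import Pool.Agent.H726Z.Canon.Generic

namespace Pool.Agent.H726Z.Canon

open Filter Topology

universe v w

theorem fix_of_ea {G : Type*} [Group G] (τ : TopologicalSpace G) (h : ExtremelyAmenable.{v} G τ)
    (K : Type) [TopologicalSpace K] [CompactSpace K] [T2Space K] [Nonempty K] (act : G → K → K)
    (h1 : ∀ x, act 1 x = x) (hm : ∀ g g' x, act (g * g') x = act g (act g' x))
    (hc : Continuous fun p : G × K => act p.1 p.2) : ∃ x, ∀ g, act g x = x := by
  let _ : MulAction G (ULift.{v} K) :=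
    { smul := fun g x => ⟨act g x.down⟩
      one_smul := fun x => congrArg ULift.up (h1 x.down)
      mul_smul := fun g g' x => congrArg ULift.up (hm g g' x.down) }
  obtain ⟨x, hx⟩ := h (ULift.{v} K) (by
    change Continuous fun p : G × ULift.{v} K => ULift.up (act p.1 p.2.down)
    exact continuous_uliftUp.comp
      (hc.comp (continuous_fst.prodMk (continuous_uliftDown.comp continuous_snd))))
  exact ⟨x.down, fun g => congrArg ULift.down (hx g)⟩

theorem exists_invariant {X : Type} (G : Subgroup (Equiv.Perm X))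
    (h : ExtremelyAmenable.{v} G (permTop G)) (N : ℕ → ℕ)
    (φ0 : ∀ n : ℕ, (Fin n → X) → Fin (N n)) :
    ∃ φ : ∀ n : ℕ, (Fin n → X) → Fin (N n),
      (∀ n b, ∀ α ∈ G, φ n (fun i => α (b i)) = φ n b) ∧
      ∀ n b m b', ∃ α ∈ G, φ n b = φ0 n (fun i => α (b i)) ∧ φ m b' = φ0 m (fun i => α (b' i)) := by
  let _ := permTop G
  let act : G → (∀ n : ℕ, (Fin n → X) → Fin (N n)) → (∀ n : ℕ, (Fin n → X) → Fin (N n)) :=
    fun g φ n b => φ n (fun i => ((g⁻¹ : G) : Equiv.Perm X) (b i))
  have h1 : ∀ φ, act 1 φ = φ := fun φ => by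
    funext n b; simp only [act, inv_one]; rfl
  have hm : ∀ g g' φ, act (g * g') φ = act g (act g' φ) := fun g g' φ => by
    funext n b; simp only [act, mul_inv_rev]; rfl
  have hev : ∀ (n : ℕ) (b : Fin n → X),
      Continuous fun ψ : (∀ n : ℕ, (Fin n → X) → Fin (N n)) => ψ n b := fun n b => by fun_prop
  have hc : Continuous fun p : G × (∀ n : ℕ, (Fin n → X) → Fin (N n)) => act p.1 p.2 := by
    refine continuous_pi fun n => continuous_pi fun b => continuous_iff_continuousAt.2 fun p => ?_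
    have h2 : ContinuousAt (fun q : G × (∀ n : ℕ, (Fin n → X) → Fin (N n)) =>
        q.2 n (fun i => ((p.1⁻¹ : G) : Equiv.Perm X) (b i))) p :=
      ((hev n _).comp continuous_snd).continuousAt
    refine h2.congr ?_
    have h3 : {g : G | ∀ i, ((p.1⁻¹ : G) : Equiv.Perm X) (b i) = ((g⁻¹ : G) : Equiv.Perm X) (b i)}
        ∈ 𝓝 p.1 := by
      classical
      refine (mem_nhds_permTop G p.1 _).2
        ⟨Finset.univ.image fun i => ((p.1⁻¹ : G) : Equiv.Perm X) (b i), fun g hg i => ?_⟩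
      have := hg _ (Finset.mem_image.2 ⟨i, Finset.mem_univ _, rfl⟩)
      apply (g : Equiv.Perm X).injective
      rw [this]
      simp
    filter_upwards [continuous_fst.continuousAt.preimage_mem_nhds h3] with q hq
    exact congrArg (q.2 n) (funext hq)
  let O : Set (∀ n : ℕ, (Fin n → X) → Fin (N n)) := Set.range fun g => act g φ0
  have hinv : ∀ g, ∀ φ ∈ closure O, act g φ ∈ closure O := fun g φ hφ =>
    map_mem_closure (f := act g) (hc.comp (continuous_const.prodMk continuous_id)) hφ (by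
      rintro _ ⟨g', rfl⟩
      exact ⟨g * g', hm _ _ _⟩)
  have : CompactSpace (closure O) := isCompact_iff_compactSpace.1 isClosed_closure.isCompact
  have : Nonempty (closure O) := ⟨⟨_, subset_closure ⟨1, rfl⟩⟩⟩
  obtain ⟨φ, hφ⟩ := fix_of_ea (permTop G) h (closure O) (fun g φ => ⟨act g φ.1, hinv g _ φ.2⟩)
    (fun φ => Subtype.ext (h1 _)) (fun g g' φ => Subtype.ext (hm _ _ _))
    ((hc.comp (continuous_fst.prodMk (continuous_subtype_val.comp continuous_snd))).subtype_mk _)
  refine ⟨φ.1, fun n b α hα => ?_, fun n b m b' => ?_⟩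
  · have := congrFun (congrFun (congrArg Subtype.val (hφ (⟨α, hα⟩ : G)⁻¹)) n) b
    simp only [act, inv_inv] at this
    exact this
  · have ho : IsOpen {ψ : ∀ n : ℕ, (Fin n → X) → Fin (N n) | ψ n b = φ.1 n b ∧ ψ m b' = φ.1 m b'} :=
      ((isOpen_discrete {φ.1 n b}).preimage (hev n b)).inter
        ((isOpen_discrete {φ.1 m b'}).preimage (hev m b'))
    obtain ⟨_, ⟨h2, h3⟩, g, rfl⟩ := mem_closure_iff.1 φ.2 _ ho ⟨rfl, rfl⟩
    exact ⟨_, (g⁻¹).2, h2.symm, h3.symm⟩

theorem canon_of_ea {X : Type} [Countable X] (G : Subgroup (Equiv.Perm X))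
    (h : ExtremelyAmenable.{v} G (permTop G)) : Canonisation.{w} G := by
  classical
  intro Y H hH f
  rcases isEmpty_or_nonempty X with hX | hX
  · refine ⟨f, @subset_closure _ (ptwise X Y) _ _ ⟨1, H.one_mem, 1, G.one_mem, rfl⟩, ?_⟩
    intro n _ a α _
    exact ⟨1, H.one_mem, fun i => hX.elim (a i)⟩
  have hfin : ∀ n, Finite (MulAction.orbitRel.Quotient H (Fin n → Y)) := fun n => by
    rcases Nat.eq_zero_or_pos n with rfl | hn
    · exact Quotient.finite _
    · exact hH n hn
  let q : ∀ n : ℕ, (Fin n → Y) → Fin (Nat.card (MulAction.orbitRel.Quotient H (Fin n → Y))) :=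
    fun n y => Finite.equivFin _ (Quotient.mk _ y)
  have hq : ∀ n (y y' : Fin n → Y), q n y = q n y' ↔ ∃ β ∈ H, ∀ i, y i = β (y' i) := by
    intro n y y'
    simp only [q]
    rw [(Finite.equivFin _).injective.eq_iff, Quotient.eq, MulAction.orbitRel_apply]
    constructor
    · rintro ⟨β, hβ⟩
      exact ⟨β, β.2, fun i => (congrFun hβ i).symm⟩
    · rintro ⟨β, hβ, hy⟩
      exact ⟨⟨β, hβ⟩, funext fun i => (hy i).symm⟩
  obtain ⟨φ, hφ1, hφ2⟩ := exists_invariant G h _ (fun n b => q n (fun i => f (b i)))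
  obtain ⟨e, he⟩ := exists_surjective_nat X
  choose idx hidx using he
  choose α hαG hα1 hα2 using fun k : ℕ =>
    hφ2 (k + 1) (fun i : Fin (k + 1) => e i) k (fun i : Fin k => e i)
  have hδ : ∀ k : ℕ, ∃ δ ∈ H, ∀ i : Fin (k + 1), f (α k (e i)) = δ (f (α (k + 1) (e i))) :=
    fun k => (hq _ _ _).1 ((hα1 k).symm.trans (hα2 (k + 1)))
  choose δ hδH hδ using hδ
  let β : ℕ → Equiv.Perm Y := fun k => Nat.rec 1 (fun k b => b * δ k) k
  have hβ : ∀ k, β (k + 1) = β k * δ k := fun k => rfl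
  have hβH : ∀ k, β k ∈ H := fun k => by
    induction k with
    | zero => exact H.one_mem
    | succ k ih => rw [hβ]; exact H.mul_mem ih (hδH k)
  have hstab : ∀ i m, i ≤ m → β m (f (α m (e i))) = β i (f (α i (e i))) := by
    intro i m him
    induction m, him using Nat.le_induction with
    | base => rfl
    | succ m him ih =>
      rw [← ih, hβ, Equiv.Perm.mul_apply, ← hδ m ⟨i, by omega⟩]
  let g : X → Y := fun x => β (idx x) (f (α (idx x) x))
  have hg : ∀ x m, idx x ≤ m → β m (f (α m x)) = g x := fun x m hm => by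
    have := hstab (idx x) m hm
    rwa [hidx] at this
  have hgq : ∀ n (b : Fin n → X), q n (fun i => g (b i)) = φ n b := by
    intro n b
    set m := Finset.univ.sup fun i => idx (b i) with hm
    have hle : ∀ i, idx (b i) ≤ m := fun i =>
      Finset.le_sup (f := fun i => idx (b i)) (Finset.mem_univ i)
    obtain ⟨α', -, h1, h2⟩ := hφ2 n b (m + 1) (fun i : Fin (m + 1) => e i)
    obtain ⟨ε, hε, hε'⟩ := (hq _ _ _).1 ((hα1 m).symm.trans h2)
    rw [h1, hq]
    refine ⟨β m * ε, H.mul_mem (hβH m) hε, fun i => ?_⟩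
    have := hε' ⟨idx (b i), Nat.lt_succ_of_le (hle i)⟩
    simp only [hidx] at this
    rw [← hg (b i) m (hle i), this, Equiv.Perm.mul_apply]
  refine ⟨g, (mem_closure_ptwise g _).2 fun I => ?_, fun n _ a γ hγ => ?_⟩
  · refine ⟨_, ⟨β (I.sup idx), hβH _, α (I.sup idx), hαG _, rfl⟩, fun x hx => ?_⟩
    exact hg x _ (Finset.le_sup (f := idx) hx)
  · refine (hq n (fun i => g (γ (a i))) (fun i => g (a i))).1 ?_
    rw [hgq n (fun i => γ (a i)), hgq n a, hφ1 n a γ hγ]

theorem main {X : Type} [Countable X] (G : Subgroup (Equiv.Perm X)) :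
    ExtremelyAmenable.{v} G (permTop G) ↔ Canonisation.{w} G :=
  ⟨canon_of_ea G, fun h => ea_of_ramsey G (ramsey_of_canon G h)⟩

end Pool.Agent.H726Z.Canon
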