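import Pool.Agent.H726Z.Canon.Top

namespace Pool.Agent.H726Z.Canon

universe v w

section
variable {Y : Type*} {C : Type*} {n : ℕ} (c : (Fin n → Y) → C)

/-- one point extension property -/
def Ext : Prop :=
  ∀ (A : Finset Y) (p : (Fin n → Option Y) → C), ∃ m, m ∉ A ∧ ∀ t : Fin n → Option Y,
    (∀ i y, t i = some y → y ∈ A) → (∃ i, t i = none) → c (fun i => (t i).getD m) = p t

/-- finite partial isomorphisms -/
def PIso (s : Finset (Y × Y)) : Prop :=
  (∀ p ∈ s, ∀ q ∈ s, p.1 = q.1 ↔ p.2 = q.2) ∧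
    ∀ t : Fin n → Y × Y, (∀ i, t i ∈ s) → c (fun i => (t i).1) = c (fun i => (t i).2)

variable {c}

theorem PIso.forth (hc : Ext c) {s : Finset (Y × Y)} (hs : PIso c s) (a : Y) :
    ∃ s' : Finset (Y × Y), PIso c s' ∧ s ⊆ s' ∧ ∃ b, (a, b) ∈ s' := by
  classical
  by_cases ha : ∃ b, (a, b) ∈ s
  · exact ⟨s, hs, subset_rfl, ha⟩
  let inv : Y → Y := fun y => if h : ∃ x, (x, y) ∈ s then h.choose else y
  have hinv : ∀ p ∈ s, inv p.2 = p.1 := by
    intro p hp
    have h : ∃ x, (x, p.2) ∈ s := ⟨p.1, hp⟩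
    simp only [inv]
    rw [dif_pos h]
    exact (hs.1 _ h.choose_spec _ hp).2 rfl
  obtain ⟨m, hm, hmp⟩ := hc (s.image Prod.snd) (fun t => c (fun i => ((t i).map inv).getD a))
  have hm' : ∀ p ∈ s, p.2 ≠ m := fun p hp h => hm (Finset.mem_image.2 ⟨p, hp, h⟩)
  have ha' : ∀ p ∈ s, p.1 ≠ a := fun p hp h => ha ⟨p.2, by rw [← h]; exact hp⟩
  refine ⟨insert (a, m) s, ⟨?_, ?_⟩, Finset.subset_insert _ _, m, Finset.mem_insert_self _ _⟩
  · intro p hp q hq
    rcases Finset.mem_insert.1 hp with rfl | hp <;> rcases Finset.mem_insert.1 hq with rfl | hq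
    · simp
    · exact ⟨fun h => absurd h.symm (ha' q hq), fun h => absurd h.symm (hm' q hq)⟩
    · exact ⟨fun h => absurd h (ha' p hp), fun h => absurd h (hm' p hp)⟩
    · exact hs.1 p hp q hq
  · intro t ht
    by_cases hall : ∀ i, t i ∈ s
    · exact hs.2 t hall
    push Not at hall
    obtain ⟨i0, hi0⟩ := hall
    have h1 := hmp (fun i => if t i ∈ s then some (t i).2 else none) (by
      intro i y hy
      by_cases h : t i ∈ s
      · simp only [h, if_true, Option.some.injEq] at hy
        exact Finset.mem_image.2 ⟨t i, h, hy⟩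
      · simp [h] at hy) ⟨i0, by simp [hi0]⟩
    have h2 : (fun i => (if t i ∈ s then some (t i).2 else none).getD m) = fun i => (t i).2 := by
      funext i
      by_cases h : t i ∈ s
      · simp [h]
      · rcases Finset.mem_insert.1 (ht i) with h' | h'
        · rw [if_neg h, h']; rfl
        · exact absurd h' h
    have h3 : (fun i => ((if t i ∈ s then some (t i).2 else none).map inv).getD a) =
        fun i => (t i).1 := by
      funext i
      by_cases h : t i ∈ s
      · simp [h, hinv _ h]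
      · rcases Finset.mem_insert.1 (ht i) with h' | h'
        · rw [if_neg h, h']; rfl
        · exact absurd h' h
    simp only [h2, h3] at h1
    exact h1.symm

theorem PIso.swap [DecidableEq Y] {s : Finset (Y × Y)} (hs : PIso c s) :
    PIso c (s.image Prod.swap) := by
  constructor
  · intro p hp q hq
    obtain ⟨p', hp', rfl⟩ := Finset.mem_image.1 hp
    obtain ⟨q', hq', rfl⟩ := Finset.mem_image.1 hq
    exact (hs.1 p' hp' q' hq').symm
  · intro t ht
    have := hs.2 (fun i => (t i).swap) (fun i => by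
      obtain ⟨p, hp, h⟩ := Finset.mem_image.1 (ht i)
      rw [← h]; simpa using hp)
    exact this.symm

theorem PIso.step (hc : Ext c) {s : Finset (Y × Y)} (hs : PIso c s) (a : Y) :
    ∃ s' : Finset (Y × Y), PIso c s' ∧ s ⊆ s' ∧ (∃ b, (a, b) ∈ s') ∧ ∃ b, (b, a) ∈ s' := by
  classical
  obtain ⟨s1, h1, h2, b, hb⟩ := hs.forth hc a
  obtain ⟨s2, h3, h4, b', hb'⟩ := h1.swap.forth hc a
  have h5 : s1 ⊆ s2.image Prod.swap := fun p hp =>
    Finset.mem_image.2 ⟨p.swap, h4 (Finset.mem_image.2 ⟨p, hp, rfl⟩), rfl⟩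
  exact ⟨s2.image Prod.swap, h3.swap, h2.trans h5, ⟨b, h5 hb⟩,
    ⟨b', Finset.mem_image.2 ⟨_, hb', rfl⟩⟩⟩

theorem PIso.extend [Countable Y] [Nonempty Y] (hc : Ext c) {s : Finset (Y × Y)} (hs : PIso c s) :
    ∃ σ : Equiv.Perm Y, (∀ y : Fin n → Y, c (fun i => σ (y i)) = c y) ∧ ∀ p ∈ s, σ p.1 = p.2 := by
  classical
  obtain ⟨e, he⟩ := exists_surjective_nat Y
  have hstep : ∀ (s : {s : Finset (Y × Y) // PIso c s}) (a : Y),
      ∃ s' : {s : Finset (Y × Y) // PIso c s}, s.1 ⊆ s'.1 ∧ (∃ b, (a, b) ∈ s'.1) ∧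
        ∃ b, (b, a) ∈ s'.1 := fun s a => by
    obtain ⟨s', h1, h2⟩ := s.2.step hc a
    exact ⟨⟨s', h1⟩, h2⟩
  choose st hst1 hst2 hst3 using hstep
  let q : ℕ → {s : Finset (Y × Y) // PIso c s} := fun k =>
    Nat.rec ⟨s, hs⟩ (fun k r => st r (e k)) k
  have hq : ∀ k, q (k + 1) = st (q k) (e k) := fun k => rfl
  have hmono : Monotone fun k => (q k).1 := monotone_nat_of_le_succ fun k => by
    rw [hq]; exact hst1 _ _
  have hL : ∀ a, ∃ b k, (a, b) ∈ (q k).1 := fun a => by
    obtain ⟨k, rfl⟩ := he a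
    obtain ⟨b, hb⟩ := hst2 (q k) (e k)
    exact ⟨b, k + 1, hb⟩
  have hR : ∀ a, ∃ b k, (b, a) ∈ (q k).1 := fun a => by
    obtain ⟨k, rfl⟩ := he a
    obtain ⟨b, hb⟩ := hst3 (q k) (e k)
    exact ⟨b, k + 1, hb⟩
  have hu : ∀ p p' k k', p ∈ (q k).1 → p' ∈ (q k').1 → (p.1 = p'.1 ↔ p.2 = p'.2) :=
    fun p p' k k' h h' => (q (max k k')).2.1 p (hmono (le_max_left _ _) h) p'
      (hmono (le_max_right _ _) h')
  choose f kf hf using hL
  choose g kg hg using hR
  refine ⟨⟨f, g, fun a => (hu _ _ _ _ (hg (f a)) (hf a)).2 rfl,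
    fun b => (hu _ _ _ _ (hf (g b)) (hg b)).1 rfl⟩, ?_, ?_⟩
  · intro y
    have := (q (Finset.univ.sup fun i => kf (y i))).2.2 (fun i => (y i, f (y i))) (fun i =>
      hmono (Finset.le_sup (f := fun i => kf (y i)) (Finset.mem_univ i)) (hf (y i)))
    exact this.symm
  · intro p hp
    exact (hu _ _ _ 0 (hf p.1) hp).1 rfl

variable (c) in
/-- the automorphism group of the colouring -/
def autc : Subgroup (Equiv.Perm Y) where
  carrier := {σ | ∀ y : Fin n → Y, c (fun i => σ (y i)) = c y}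
  mul_mem' := by
    intro σ τ hσ hτ y
    exact (hσ fun i => τ (y i)).trans (hτ y)
  one_mem' := fun _ => rfl
  inv_mem' := by
    intro σ hσ y
    have := hσ fun i => σ⁻¹ (y i)
    simpa using this.symm

theorem oligo_autc [Countable Y] [Nonempty Y] [Finite C] (hc : Ext c) : Oligomorphic (autc c) := by
  classical
  intro k _
  let ty : (Fin k → Y) → (Fin k → Fin k → Prop) × ((Fin n → Fin k) → C) :=
    fun u => (fun i j => u i = u j, fun s => c (fun i => u (s i)))
  have key : ∀ u v, ty u = ty v → (MulAction.orbitRel (autc c) (Fin k → Y)) u v := by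
    intro u v huv
    have h1 := congrArg Prod.fst huv
    have h2 := congrArg Prod.snd huv
    have hs : PIso c (Finset.univ.image fun i => (v i, u i)) := by
      constructor
      · intro p hp q hq
        obtain ⟨i, -, rfl⟩ := Finset.mem_image.1 hp
        obtain ⟨j, -, rfl⟩ := Finset.mem_image.1 hq
        exact (iff_of_eq (congrFun (congrFun h1 i) j)).symm
      · intro t ht
        have : ∀ i, ∃ j, (v j, u j) = t i := fun i => by
          obtain ⟨j, -, hj⟩ := Finset.mem_image.1 (ht i)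
          exact ⟨j, hj⟩
        choose s hs using this
        have h3 := congrFun h2 s
        simp only [← hs]
        exact h3.symm
    obtain ⟨σ, hσ, hσ'⟩ := hs.extend hc
    rw [MulAction.orbitRel_apply]
    refine ⟨⟨σ, hσ⟩, ?_⟩
    funext i
    exact hσ' (v i, u i) (Finset.mem_image.2 ⟨i, Finset.mem_univ _, rfl⟩)
  refine Finite.of_injective (fun q : MulAction.orbitRel.Quotient (autc c) (Fin k → Y) =>
    ty q.out) fun q q' h => ?_
  rw [← q.out_eq, ← q'.out_eq]
  exact Quotient.sound (key _ _ h)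

end

theorem exists_generic (X : Type*) [Countable X] (C : Type*) [Countable C] (n : ℕ)
    (χ : (Fin n → X) → C) (C0 : C) :
    ∃ (f : X → ULift.{w} ℕ) (c : (Fin n → ULift.{w} ℕ) → C), Ext c ∧
      ∀ b, c (fun i => f (b i)) = χ b := by
  classical
  obtain ⟨ι, hι⟩ := exists_injective_nat X
  obtain ⟨e, he⟩ := exists_surjective_nat (Finset ((Fin n → Option (ULift.{w} ℕ)) × C))
  let ev : Finset ((Fin n → Option (ULift.{w} ℕ)) × C) → (Fin n → Option (ULift.{w} ℕ)) → C :=
    fun s t => if h : ∃ x, (t, x) ∈ s then h.choose else C0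
  let f : X → ULift.{w} ℕ := fun x => ⟨2 * ι x⟩
  let rk : ULift.{w} ℕ → ℕ := fun y => if y.down % 2 = 0 then 0 else y.down
  let c : (Fin n → ULift.{w} ℕ) → C := fun y =>
    if h : ∃ b : Fin n → X, (fun i => f (b i)) = y then χ h.choose else
      ev (e (Nat.unpair ((Finset.univ.sup fun i => rk (y i)) / 2)).1)
        (fun i => if (y i).down = (Finset.univ.sup fun i => rk (y i)) then none else some (y i))
  refine ⟨f, c, ?_, ?_⟩
  · intro A p
    let T : Finset (Fin n → Option (ULift.{w} ℕ)) :=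
      Fintype.piFinset fun _ => insert none (A.image some)
    obtain ⟨j, hj⟩ := he (T.image fun t => (t, p t))
    set N := A.sup (fun y => y.down) with hN
    set k := Nat.pair j N with hk
    have hkN : N ≤ k := Nat.right_le_pair _ _
    have hA : ∀ y ∈ A, y.down < 2 * k + 1 := fun y hy => by
      have : y.down ≤ N := Finset.le_sup (f := fun y : ULift.{w} ℕ => y.down) hy
      omega
    refine ⟨⟨2 * k + 1⟩, fun h => lt_irrefl _ (hA _ h), ?_⟩
    rintro t ht ⟨i0, hi0⟩
    have hsup : (Finset.univ.sup fun i => rk ((t i).getD ⟨2 * k + 1⟩)) = 2 * k + 1 := by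
      apply le_antisymm
      · refine Finset.sup_le fun i _ => ?_
        rcases h : t i with _ | y
        · simp only [rk, Option.getD_none]; split_ifs <;> omega
        · have := hA y (ht i y h)
          simp only [rk, Option.getD_some]; split_ifs <;> omega
      · refine le_trans ?_ (Finset.le_sup (f := fun i => rk ((t i).getD ⟨2 * k + 1⟩))
          (Finset.mem_univ i0))
        simp only [hi0, rk, Option.getD_none]
        rw [if_neg (by omega)]
    have hno : ¬ ∃ b : Fin n → X, (fun i => f (b i)) = fun i => (t i).getD ⟨2 * k + 1⟩ := by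
      rintro ⟨b, hb⟩
      have := congrArg ULift.down (congrFun hb i0)
      simp only [hi0, f, Option.getD_none] at this
      omega
    simp only [c]
    rw [dif_neg hno, hsup]
    have h2 : (2 * k + 1) / 2 = k := by omega
    rw [h2, hk, Nat.unpair_pair, hj, ← hk]
    have h3 : (fun i => if ((t i).getD ⟨2 * k + 1⟩).down = 2 * k + 1 then none
        else some ((t i).getD ⟨2 * k + 1⟩)) = t := by
      funext i
      rcases h : t i with _ | y
      · simp
      · have := hA y (ht i y h)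
        simp only [Option.getD_some]
        rw [if_neg (by omega)]
    rw [h3]
    have hT : t ∈ T := Fintype.mem_piFinset.2 fun i => by
      rcases h : t i with _ | y
      · exact Finset.mem_insert_self _ _
      · exact Finset.mem_insert_of_mem (Finset.mem_image.2 ⟨y, ht i y h, rfl⟩)
    have h4 : ∃ x, (t, x) ∈ T.image fun t => (t, p t) := ⟨p t, Finset.mem_image.2 ⟨t, hT, rfl⟩⟩
    simp only [ev]
    rw [dif_pos h4]
    obtain ⟨t', -, h5⟩ := Finset.mem_image.1 h4.choose_spec
    have h6 := congrArg Prod.fst h5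
    have h7 := congrArg Prod.snd h5
    simp only at h6 h7
    rw [← h7, h6]
  · intro b
    have h : ∃ b' : Fin n → X, (fun i => f (b' i)) = fun i => f (b i) := ⟨b, rfl⟩
    simp only [c]
    rw [dif_pos h]
    congr 1
    funext i
    have := congrArg ULift.down (congrFun h.choose_spec i)
    simp only [f] at this
    exact hι (by omega)

theorem ramsey_of_canon {X : Type*} [Countable X] (G : Subgroup (Equiv.Perm X))
    (h : Canonisation.{w} G) : Ramsey G := by
  classical
  intro C _ n a χ F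
  rcases Nat.eq_zero_or_pos n with rfl | hn
  · exact ⟨1, fun γ _ => congrArg χ (Subsingleton.elim _ _)⟩
  obtain ⟨f, c, hc, hf⟩ := exists_generic.{w} X C n χ (χ a)
  obtain ⟨g, hg, hcan⟩ := h _ (autc c) (oligo_autc hc) f
  obtain ⟨k, ⟨β, hβ, α, hα, rfl⟩, hk⟩ := (mem_closure_ptwise g _).1 hg
    ((insert 1 F).biUnion fun γ : G => Finset.univ.image fun i => (γ : Equiv.Perm X) (a i))
  have key : ∀ γ ∈ insert 1 F, χ (fun i => α ((γ : Equiv.Perm X) (a i))) =
      c (fun i => g (a i)) := by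
    intro γ hγ
    obtain ⟨δ, hδ, hδ'⟩ := hcan n hn a γ γ.2
    rw [← hδ (fun i => g (a i)), ← hf, ← hβ]
    congr 1
    funext i
    rw [← hδ' i, ← hk _ (Finset.mem_biUnion.2 ⟨γ, hγ, Finset.mem_image.2 ⟨i, Finset.mem_univ _, rfl⟩⟩)]
    rfl
  refine ⟨⟨α, hα⟩, fun γ hγ => ?_⟩
  rw [key γ (Finset.mem_insert_of_mem hγ), ← key 1 (Finset.mem_insert_self _ _)]
  rfl

end Pool.Agent.H726Z.Canon
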