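import Pool.Agent.H726Z.Canon.Defs

namespace Pool.Agent.H726Z.Canon

open Filter Topology

universe v w

theorem mem_nhds_ptwise {X : Type*} {Y : Type*} (g : X → Y) (V : Set (X → Y)) :
    V ∈ @nhds _ (ptwise X Y) g ↔ ∃ I : Finset X, ∀ h : X → Y, (∀ x ∈ I, h x = g x) → h ∈ V := by
  letI : TopologicalSpace Y := ⊥
  haveI : DiscreteTopology Y := ⟨rfl⟩
  change V ∈ @nhds _ Pi.topologicalSpace g ↔ _
  rw [nhds_pi, Filter.mem_pi']
  constructor
  · rintro ⟨I, t, ht, hV⟩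
    refine ⟨I, fun h hh => hV fun x hx => ?_⟩
    rw [hh x hx]
    exact mem_of_mem_nhds (ht x)
  · rintro ⟨I, hI⟩
    refine ⟨I, fun x => {g x}, fun x => ?_, fun h hh => hI h fun x hx => hh x hx⟩
    rw [nhds_discrete]
    exact rfl

theorem mem_closure_ptwise {X : Type*} {Y : Type*} (g : X → Y) (S : Set (X → Y)) :
    g ∈ @closure _ (ptwise X Y) S ↔ ∀ I : Finset X, ∃ h ∈ S, ∀ x ∈ I, h x = g x := by
  letI := ptwise X Y
  rw [mem_closure_iff_nhds]
  constructor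
  · intro H I
    obtain ⟨h, h1, h2⟩ := H {h | ∀ x ∈ I, h x = g x}
      ((mem_nhds_ptwise g _).2 ⟨I, fun h hh => hh⟩)
    exact ⟨h, h2, h1⟩
  · intro H t ht
    obtain ⟨I, hI⟩ := (mem_nhds_ptwise g t).1 ht
    obtain ⟨h, h1, h2⟩ := H I
    exact ⟨h, hI h h2, h1⟩

theorem mem_nhds_permTop {X : Type*} (G : Subgroup (Equiv.Perm X)) (g : G) (V : Set G) :
    V ∈ @nhds _ (permTop G) g ↔
      ∃ I : Finset X, ∀ h : G, (∀ x ∈ I, (h : Equiv.Perm X) x = (g : Equiv.Perm X) x) → h ∈ V := by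
  unfold permTop symTop
  rw [@induced_compose, @mem_nhds_induced _ _ (ptwise X X)]
  constructor
  · rintro ⟨u, hu, huV⟩
    obtain ⟨I, hI⟩ := (mem_nhds_ptwise _ u).1 hu
    exact ⟨I, fun h hh => huV (hI _ hh)⟩
  · rintro ⟨I, hI⟩
    refine ⟨{k | ∀ x ∈ I, k x = (g : Equiv.Perm X) x}, (mem_nhds_ptwise _ _).2 ⟨I, fun h hh => hh⟩,
      fun h hh => hI h hh⟩

/-- The Ramsey form of extreme amenability. -/
def Ramsey {X : Type*} (G : Subgroup (Equiv.Perm X)) : Prop :=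
  ∀ (C : Type) [Finite C] (n : ℕ) (a : Fin n → X) (χ : (Fin n → X) → C) (F : Finset G),
    ∃ α : G, ∀ γ ∈ F, χ (fun i => (α : Equiv.Perm X) ((γ : Equiv.Perm X) (a i))) =
      χ (fun i => (α : Equiv.Perm X) (a i))

theorem ea_of_ramsey {X : Type*} (G : Subgroup (Equiv.Perm X)) (h : Ramsey G) :
    ExtremelyAmenable.{v} G (permTop G) := by
  classical
  intro K _ _ _ hne _ hc
  letI := permTop G
  by_contra hno
  push Not at hno
  have hcg : ∀ g : G, Continuous (fun y : K => g • y) := fun g =>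
    hc.comp (continuous_const.prodMk continuous_id)
  have key : ∀ x : K, ∃ (γ : G) (W U : Set K) (I : Finset X), IsOpen U ∧ x ∈ U ∧
      (∀ y ∈ W, γ • y ∉ W) ∧
      ∀ v : G, (∀ z ∈ I, (v : Equiv.Perm X) z = z) → ∀ y ∈ U, v • y ∈ W := by
    intro x
    obtain ⟨γ, hγ⟩ := hno x
    obtain ⟨W2, W1, o2, o1, m2, m1, hd⟩ := t2_separation hγ
    have hW : IsOpen (W1 ∩ (fun y : K => γ • y) ⁻¹' W2) := o1.inter (o2.preimage (hcg γ))
    have hx : ((1 : G), x) ∈ (fun p : G × K => p.1 • p.2) ⁻¹'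
        (W1 ∩ (fun y : K => γ • y) ⁻¹' W2) := by
      simp [m1, m2]
    have hn := (hW.preimage hc).mem_nhds hx
    rw [nhds_prod_eq, Filter.mem_prod_iff] at hn
    obtain ⟨V, hV, U, hU, hVU⟩ := hn
    obtain ⟨I, hI⟩ := (mem_nhds_permTop G 1 V).1 hV
    obtain ⟨U', hU'1, hU'2, hU'3⟩ := mem_nhds_iff.1 hU
    refine ⟨γ, W1 ∩ (fun y : K => γ • y) ⁻¹' W2, U', I, hU'2, hU'3, ?_, ?_⟩
    · rintro y ⟨_, hy⟩ ⟨hy', _⟩
      exact Set.disjoint_left.1 hd hy hy'
    · intro v hv y hy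
      exact hVU (Set.mk_mem_prod (hI v (by simpa using hv)) (hU'1 hy))
  choose γ W U I hUo hxU hW hI using key
  obtain ⟨T, hT⟩ := isCompact_univ.elim_finite_subcover U hUo
    (fun x _ => Set.mem_iUnion.2 ⟨x, hxU x⟩)
  have hT' : ∀ y : K, ∃ x : T, y ∈ U x := fun y => by
    have := hT (Set.mem_univ y)
    simp only [Set.mem_iUnion] at this
    obtain ⟨x, hx, hy⟩ := this
    exact ⟨⟨x, hx⟩, hy⟩
  choose col hcol using hT'
  obtain ⟨x0⟩ := hne
  set J : Finset X := T.biUnion I with hJ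
  set a : Fin J.card → X := fun i => (J.equivFin.symm i : X) with ha
  have haJ : ∀ z ∈ J, ∃ i, a i = z := fun z hz => ⟨J.equivFin ⟨z, hz⟩, by simp [ha]⟩
  let e := T.equivFin
  let χ : (Fin J.card → X) → Fin T.card := fun b =>
    if hb : ∃ g : G, (fun i => ((g⁻¹ : G) : Equiv.Perm X) (a i)) = b then
      e (col (hb.choose • x0)) else e (col x0)
  have hχ : ∀ g : G, g • x0 ∈ W (e.symm (χ (fun i => ((g⁻¹ : G) : Equiv.Perm X) (a i)))) := by
    intro g
    have hb : ∃ g' : G, (fun i => ((g'⁻¹ : G) : Equiv.Perm X) (a i)) =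
        (fun i => ((g⁻¹ : G) : Equiv.Perm X) (a i)) := ⟨g, rfl⟩
    have h1 : χ (fun i => ((g⁻¹ : G) : Equiv.Perm X) (a i)) = e (col (hb.choose • x0)) := by
      simp only [χ]
      rw [dif_pos hb]
    rw [h1, Equiv.symm_apply_apply]
    set g' := hb.choose with hg'
    have h2 := hb.choose_spec
    rw [← hg'] at h2
    have h3 : g • x0 = (g * g'⁻¹) • (g' • x0) := by
      rw [smul_smul]; simp
    rw [h3]
    refine hI _ _ ?_ _ (hcol _)
    intro z hz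
    obtain ⟨i, rfl⟩ := haJ z (Finset.mem_biUnion.2 ⟨_, (col (g' • x0)).2, hz⟩)
    have h4 := congrFun h2 i
    simp only [Subgroup.coe_mul, Equiv.Perm.mul_apply]
    rw [h4]
    simp
  obtain ⟨α, hα⟩ := h (Fin T.card) J.card a χ (T.image fun x => (γ x)⁻¹)
  set j := e.symm (χ (fun i => (α : Equiv.Perm X) (a i))) with hj
  have h1 : α⁻¹ • x0 ∈ W j := by
    have := hχ α⁻¹
    simpa using this
  have h2 : (γ j * α⁻¹) • x0 ∈ W j := by
    have := hχ (γ j * α⁻¹)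
    have h3 := hα (γ j)⁻¹ (Finset.mem_image.2 ⟨j, j.2, rfl⟩)
    have h4 : (fun i => (((γ j * α⁻¹)⁻¹ : G) : Equiv.Perm X) (a i)) =
        fun i => (α : Equiv.Perm X) ((((γ j)⁻¹ : G) : Equiv.Perm X) (a i)) := by
      funext i; simp
    rw [h4, h3] at this
    exact this
  rw [mul_smul] at h2
  exact hW j _ h1 h2

end Pool.Agent.H726Z.Canon
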